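import Pool.Agent.Lib.MP_0f7bfe_al.Main

/-!
# Asymptotic minors of groups with a commensurated subgroup (problem MP_0f7bfe_al)

Let `G` be a finitely generated group with an infinite finitely generated commensurated subgroup of
infinite index (for instance an infinite finitely generated normal subgroup with infinite quotient).
If `G` embeds in a group `Γ` one of whose Cayley graphs does not contain every finite graph as an
asymptotic minor, then `G` is virtually `ℤ × ℤ`, hence virtually planar.
-/

namespace Pool.Agent.Lib.MP_0f7bfe_al.Variants.CommensuratedSubgroup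

open Pool.Agent.Lib.MP_0f7bfe_al

open scoped Pointwise

universe u v

theorem result {G : Type u} {Γ : Type v} [Group G] [Group Γ] (f : G →* Γ)
    (hf : Function.Injective f) (hG : Group.FG G) (N : Subgroup G) (hN : N.FG)
    (hinf : Infinite N) (hidx : N.index = 0)
    (hcomm : Subgroup.Commensurable.commensurator N = ⊤) :
    (∀ S : Set Γ, S.Finite → Subgroup.closure S = ⊤ → ∀ (n : ℕ) (F : SimpleGraph (Fin n)),
      IsAsymptoticMinor F (SimpleGraph.mulCayley S)) ∨
    (VirtuallyPlanar G ∧ ∃ A : Subgroup G, A.index ≠ 0 ∧
      Nonempty (A ≃* Multiplicative (ℤ × ℤ))) := by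
  have hC : Commensurated N := by
    intro g
    have hg : g ∈ Subgroup.Commensurable.commensurator N := by rw [hcomm]; trivial
    rw [Subgroup.Commensurable.commensurator_mem_iff] at hg
    have hg1 := hg.1
    have he : N.map (MulAut.conj g).toMonoidHom = ConjAct.toConjAct g • N := by
      ext x
      rw [Subgroup.mem_map, Subgroup.mem_smul_pointwise_iff_exists]
      constructor
      · rintro ⟨y, hy, rfl⟩
        exact ⟨y, hy, by simp [ConjAct.smul_def]⟩
      · rintro ⟨y, hy, rfl⟩
        exact ⟨y, hy, by simp [ConjAct.smul_def]⟩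
    rw [he]
    exact hg1
  have hI : Infinite (G ⧸ N) := by
    rcases finite_or_infinite (G ⧸ N) with h | h
    · exact absurd hidx (Subgroup.index_ne_zero_of_finite)
    · exact h
  rcases dichotomy hG N hC hN hinf hI with h | ⟨A, hA, ⟨e⟩⟩
  · left
    intro S hS hgen n F
    exact asymptotic_of_allCliques (h.map f hf) S hS hgen n F
  · right
    obtain ⟨S, h1, h2, h3⟩ := planar_Z2 A e
    exact ⟨⟨A, hA, S, h1, h2, h3⟩, A, hA, ⟨e⟩⟩

end Pool.Agent.Lib.MP_0f7bfe_al.Variants.CommensuratedSubgroup
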